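import Pool.Agent.P8H27.DC.Fin

/-!
# MP_9177b7_ag: decoupling of the Galois orbits of almost all special points from arbitrary algebraic points

`G` is the Galois group of a number field `F`. `Y_1, ..., Y_t` are components of Shimura varieties over `F` (for the
theorem: measurable spaces with an action of `G` on the special points and a probability measure), with packets of
special points (`GaloisPacket`: finite Galois-stable sets, on which a finite commutative group `A`, for instance a
class group, acts transitively and through which the Galois group over an extension of bounded degree acts).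
The functions `g_j` on `Y_j` have means over the packets which converge, and Weyl sums with a power saving.

Theorem. Let `x` be an arbitrary algebraic point (that is, a point with a finite Galois orbit) of an arbitrary
variety `X` over `F`. For almost all tuples `y = (y_1, ..., y_t)` of points of given packets with large
discriminants, the Galois orbit of `(x, y)` is close to the product of the Galois orbit of `x` and of the measures
`μ_j`: the mean of `f(x') g_1(y'_1) ... g_t(y'_t)` over the conjugates `(x', y')` of `(x, y)` is close to the mean of
`f` over the conjugates of `x` times the product of the integrals of the `g_j`. This is uniform in `X`, `x`, `f` and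
in the packets: the degree of `x` and its field of definition are arbitrary, they can contain the fields of
definition of all points of the packets, the packets can be equal and `x` can be one of the tuples `y`.

So if Q1 holds for a sequence of special points `x_i` of a Shimura variety `X` then it holds, for product test
functions, for almost all special points `(x_i, y)` of `X × Y_1 × ... × Y_t`.

Proof. Let `N` be the intersection of the groups `E`. The second moment over `y` of the deviation is a mean, over
the conjugates `(x', y')`, of second moments for the action of `N` with fixed `x'`; opening the square, `f(x')`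
enters only through `|f| ≤ 1` and the autocorrelations of the `g_j` over the class groups remain
(`Pool.Agent.P8H27.DC.varg`). By Fourier analysis on `A` they are bounded by the Weyl sums
(`Pool.Agent.P8H27.EQ.fou`).
-/

set_option autoImplicit false

namespace Pool.Agent.Results.MP_9177b7_ag.AlmostAllDecoupling

open MeasureTheory
open Pool.Agent.P8H27.LO (GaloisPacket)
open Pool.Agent.P8H27.DC
open Pool.Agent.P8H27.EQ (mean)

/-- **Decoupling of the Galois orbits of almost all tuples of special points from all algebraic points.** -/
theorem result {G : Type} [Group G] (t : ℕ) (Y : Fin t → Type) [∀ j, MulAction G (Y j)]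
    [∀ j, MeasurableSpace (Y j)] (μ : ∀ j, ProbabilityMeasure (Y j))
    (𝔓 : ∀ j, Set (GaloisPacket G (Y j))) (h𝔓 : ∀ j, IsRich (𝔓 j)) (g : ∀ j, Y j → ℝ)
    (hg : ∀ j y, |g j y| ≤ 1) (hc : ∀ j, PacketsConverge (μ j) (𝔓 j) (g j))
    (hW : ∀ j, WeylSums (𝔓 j) (g j)) (ε : ℝ) (hε : 0 < ε) :
    ∃ D₀ : ℕ, ∀ p : ∀ j, GaloisPacket G (Y j), (∀ j, p j ∈ 𝔓 j) → (∀ j, D₀ ≤ (p j).disc) →
      ∀ (X : Type) [MulAction G X] (x : X), (MulAction.orbit G x).Finite →
      ∀ f : X → ℝ, (∀ z, |f z| ≤ 1) →
      (Nat.card {y : ∀ j, (p j).pts // ε <
        |mean (fun z : X × (∀ j, Y j) => f z.1 * ∏ j, g j (z.2 j))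
          (fun z : MulAction.orbit G ((x, fun j => (y j : Y j)) : X × (∀ j, Y j)) =>
            (z : X × (∀ j, Y j))) -
          mean f (fun z : MulAction.orbit G x => (z : X)) *
            ∏ j, ∫ y, g j y ∂(μ j : Measure (Y j))|} : ℝ) ≤
      ε * Nat.card (∀ j, (p j).pts) :=
  decoupling μ 𝔓 h𝔓 g hg hc hW ε hε

end Pool.Agent.Results.MP_9177b7_ag.AlmostAllDecoupling
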