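import Pool.Agent.P8H27.ES.Thm4
import Pool.Agent.P8H27.ES.Crit

/-!
# MP_9177b7_ag: Galois orbits of special points on products of Shimura varieties

`S = S_1 × ... × S_r` is a product of connected components of Shimura varieties, `S_j` is the space `Y j`. The
definitions are in `Pool.Agent.P8H27.ES.Defs`: `SpecialPacket` (a finite Galois-stable set of special points
of one type on one factor, with the reciprocity law), `Indep` (independence of two packets), `IsTame`,
`SmallIndex`, `WeylSums`, and `mean` in `Pool.Agent.P8H27.EQ.Defs`.

1. Criteria for independence. Suppose that the Galois closures of the reflex fields of two special points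
   intersect in a real field. Complex conjugation inverts the operation of Galois on special points of the
   components of a Shimura variety (the sum of the cocharacter and of its conjugate is the weight, which is
   rational and central), so the packets are independent, for `m = 2`. More generally it suffices that for some
   elements of the Galois group of the intersection the product of the conjugates acts trivially: in the case of
   linearly disjoint reflex fields this is the norm of the cocharacter.
2. If the packets of the coordinates of `x_i` are pairwise independent then the Galois orbits of `x_i` are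
   equidistributed in `S`, as soon as this is so on every single factor (for the orbits of subgroups of
   small index).
3. Without a condition on the reflex fields outside a set `J` of coordinates, almost all completions of a
   tuple `x_J` have equidistributed Galois orbits, if the Weyl sums on the factors have a power saving.

For products of quaternionic Shimura curves over a totally real field the hypotheses are known (genus theory
gives `IsTame` for `m = 2`; equidistribution of orbits of small index and bounds of Weyl sums: Zhang,
Venkatesh, Harcos and Michel, Michel and Venkatesh). In general the theorem reduces the question Q1 for the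
product to the factors.
-/

set_option autoImplicit false

namespace Pool.Agent.Results.MP_9177b7_ag.DisjointReflexFields

open MeasureTheory Filter Topology
open scoped BoundedContinuousFunction
open Pool.Agent.P8H27.ES
open Pool.Agent.P8H27.EQ (mean)

/-- **Equidistribution of the Galois orbits of special points on products of Shimura varieties**: criteria
for independence (reflex fields with real intersection); equidistribution for pairwise independent packets;
equidistribution for almost all completions of a tuple with pairwise independent packets. -/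
theorem result {Γ : Type} [Group Γ] (ΓF : Subgroup Γ) (r m : ℕ) (Y : Fin r → Type)
    [∀ j, MulAction ΓF (Y j)] [∀ j, TopologicalSpace (Y j)] [∀ j, SecondCountableTopology (Y j)]
    [∀ j, TopologicalSpace.PseudoMetrizableSpace (Y j)] [∀ j, MeasurableSpace (Y j)]
    [∀ j, BorelSpace (Y j)] (μ : ∀ j, ProbabilityMeasure (Y j))
    (𝔓 : ∀ j, Set (SpecialPacket ΓF (Y j))) (h𝔓 : ∀ j, IsTame m (𝔓 j)) :
    (∀ (j k : Fin r) (p : SpecialPacket ΓF (Y j)) (q : SpecialPacket ΓF (Y k)),
      (∀ c : Γ, IsConjugation c q → RealIntersection c p q → ∀ l : ℕ, Indep (2 * l) p q) ∧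
      (∀ (n : ℕ) (τ : Fin n → Γ), (∀ s, τ s ∈ p.R ⊔ q.R) →
        (∀ σ : q.E, ∏ s, q.rho (MulAut.conjNormal (τ s) σ) = 1) → ∀ l : ℕ, Indep (n * l) p q)) ∧
    ((∀ j, ∀ f : Y j →ᵇ ℝ, SmallIndex (μ j) (𝔓 j) f) →
      ∀ p : ℕ → ∀ j, SpecialPacket ΓF (Y j), (∀ i j, p i j ∈ 𝔓 j) →
      (∀ j, Tendsto (fun i => (p i j).disc) atTop atTop) →
      (∀ i j k, j ≠ k → Indep m (p i j) (p i k)) →
      ∀ x : ℕ → ∀ j, Y j, (∀ i j, x i j ∈ (p i j).pts) → ∀ f : (∀ j, Y j) →ᵇ ℝ,
      Tendsto (fun i => mean f (fun y : MulAction.orbit ΓF (x i) => (y : ∀ j, Y j))) atTop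
        (𝓝 (∫ y, f y ∂(Measure.pi fun j => (μ j : Measure (Y j)))))) ∧
    ((∀ j, IsTransitive (𝔓 j)) → ∀ f : (∀ j, Y j) →ᵇ ℝ, IsApproximable μ 𝔓 f →
      ∀ (J : Finset (Fin r)) (ε : ℝ), 0 < ε →
      ∃ D₀ : ℕ, ∀ p : ∀ j, SpecialPacket ΓF (Y j), (∀ j, p j ∈ 𝔓 j) → (∀ j, D₀ ≤ (p j).disc) →
      (∀ j ∈ J, ∀ k ∈ J, j ≠ k → Indep m (p j) (p k)) → ∀ x : ∀ j, (p j).pts,
      (Nat.card {y : ∀ j, (p j).pts // (∀ j ∈ J, y j = x j) ∧
        ε < |mean f (fun z : MulAction.orbit ΓF (fun j => (y j : Y j)) => (z : ∀ j, Y j)) -
            ∫ z, f z ∂(Measure.pi fun j => (μ j : Measure (Y j)))|} : ℝ) ≤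
      ε * Nat.card {y : ∀ j, (p j).pts // ∀ j ∈ J, y j = x j}) :=
  ⟨fun _ _ p q => ⟨fun _ hc h l => indep_mul (indep_of_real p q hc h) l,
      fun _ τ hτ hq l => indep_mul (indep_of_norm p q τ hτ hq) l⟩,
    fun hμ p hp hdisc hK x hx f => thm1 μ 𝔓 h𝔓 hμ p hp hdisc hK x hx f,
    fun htr f hf J ε hε => thm3 μ 𝔓 h𝔓 htr f hf J ε hε⟩

end Pool.Agent.Results.MP_9177b7_ag.DisjointReflexFields
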