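import Pool.Agent.P8H27.LJ.Fin

/-!
# MP_9177b7_ag: Galois orbits of special points on products of arbitrary Shimura varieties

`Y_1, ..., Y_r` are connected components of Shimura varieties (the theorem needs only the topology, the action of
the Galois group `G` of a common field of definition `F` on the special points, and the probability measures),
`S_j` is the set of special points of `Y_j`, with any measure of complexity `disc` (`SpecialPoints`). The only
property of special points which is used is the following consequence of the reciprocity law: a normal subgroup of
bounded index of `G` (the Galois group over the Galois closure of the reflex field) acts on the Galois orbit of a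
special point through a commutative group.

A subgroup `V` of `G` is the Galois group of an extension `K` of `F`. The orbit `V z` of a special point is large
(`IsLarge`) if the degree of `z` over `K` is at least the degree over `F`, divided by `disc ^ η`.

Hypothesis: on every single factor the large orbits are equidistributed (`LargeOrbitsConverge`). This is the
robust form of the question Q1 for the factor; for Shimura curves and modular curves it is known (Zhang; Harcos and
Michel: subgroups of small index of the class group).

Theorem. Let `x` be a special point of the product.
1. Let `K` be an arbitrary extension of `F`, with Galois group `U`. If each coordinate `x_j` has large degree over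
   the field generated over `K` by the other coordinates (`others U x j` is its Galois group), then the orbit
   `U x` is equidistributed in the product, uniformly for all `x` and `U`, as all `disc x_j` tend to infinity.
2. This holds for `K = F` if the fields of definition of the coordinates are almost independent: the degree of `x`
   over `F` is at least the product of the degrees of the coordinates, divided by `disc ^ η'`.
3. The special points of the product with this property satisfy the hypothesis again: the orbits `U x` with
   `#(G x) ≤ disc ^ δ #(U x)` are equidistributed. So the factors `Y_j` may be products themselves, and the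
   theorem can be iterated.

Nothing is assumed about the reflex fields of the coordinates: they may be equal. (The starting point was
`MP_ad7a55_nt.LargeOrbits`, for packets of CM points on modular curves with a transitive action of the class group,
and `U = G`.) If `x_n` is a sequence as in Q1 then the discriminants of all coordinates tend to infinity.
-/

set_option autoImplicit false

namespace Pool.Agent.Results.MP_9177b7_ag.LargeJointOrbits

open MeasureTheory Filter Topology
open scoped BoundedContinuousFunction
open Pool.Agent.P8H27.LJ
open Pool.Agent.P8H27.EQ (mean)

/-- **Equidistribution of large Galois orbits of special points on products**: the robust form of the question for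
the factors implies equidistribution (and its robust form) for all special points of the product whose coordinates
have large degree over the field of definition of the other coordinates. -/
theorem result {G : Type} [Group G] (r : ℕ) (Y : Fin r → Type)
    [∀ j, MulAction G (Y j)] [∀ j, TopologicalSpace (Y j)] [∀ j, SecondCountableTopology (Y j)]
    [∀ j, TopologicalSpace.PseudoMetrizableSpace (Y j)] [∀ j, MeasurableSpace (Y j)]
    [∀ j, BorelSpace (Y j)] (μ : ∀ j, ProbabilityMeasure (Y j)) (S : ∀ j, SpecialPoints G (Y j))
    (η η' : ℝ) (hη : η' < η) (hμ : ∀ j, ∀ f : Y j →ᵇ ℝ, LargeOrbitsConverge η (μ j) (S j) f)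
    (f : (∀ j, Y j) →ᵇ ℝ) :
    (∀ ε : ℝ, 0 < ε → ∃ D₀ : ℕ, ∀ x : ∀ j, Y j, (∀ j, x j ∈ (S j).pts ∧ D₀ ≤ (S j).disc (x j)) →
      ∀ U : Subgroup G, (∀ j, IsLarge (S j) η' (others U x j) (x j)) →
      |mean f (fun y : MulAction.orbit U x => (y : ∀ j, Y j)) -
        ∫ y, f y ∂(Measure.pi fun j => (μ j : Measure (Y j)))| ≤ ε) ∧
    (∀ x : ℕ → ∀ j, Y j, (∀ i j, x i j ∈ (S j).pts) →
      (∀ j, Tendsto (fun i => (S j).disc (x i j)) atTop atTop) →
      (∀ᶠ i in atTop, ∀ j, ((∏ k, Nat.card (MulAction.orbit G (x i k)) : ℕ) : ℝ) ≤
        ((S j).disc (x i j) : ℝ) ^ η' * Nat.card (MulAction.orbit G (x i))) →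
      Tendsto (fun i => mean f (fun y : MulAction.orbit G (x i) => (y : ∀ j, Y j))) atTop
        (𝓝 (∫ y, f y ∂(Measure.pi fun j => (μ j : Measure (Y j)))))) ∧
    (∀ δ : ℝ, η' + δ < η → ∀ ε : ℝ, 0 < ε → ∃ D₀ : ℕ, ∀ x : ∀ j, Y j,
      (∀ j, x j ∈ (S j).pts ∧ D₀ ≤ (S j).disc (x j)) →
      (∀ j, IsLarge (S j) η' (others ⊤ x j) (x j)) → ∀ U : Subgroup G,
      (∀ j, (Nat.card (MulAction.orbit G x) : ℝ) ≤
        ((S j).disc (x j) : ℝ) ^ δ * Nat.card (MulAction.orbit U x)) →
      |mean f (fun y : MulAction.orbit U x => (y : ∀ j, Y j)) -
        ∫ y, f y ∂(Measure.pi fun j => (μ j : Measure (Y j)))| ≤ ε) :=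
  ⟨fun ε hε => uniform μ S hη hμ f ε hε,
    fun x hx hdisc hsize => sequences μ S hη hμ f x hx hdisc hsize,
    fun _ hδ ε hε => robust μ S hδ hμ f ε hε⟩

end Pool.Agent.Results.MP_9177b7_ag.LargeJointOrbits
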